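import Pool.Agent.N207.HG.Stm
import Pool.Agent.Y977.ORD.DenseCore

/-!
# HG/CNT: the hypotheses of the engine persist under analytic continuation
-/

set_option autoImplicit false

open Matrix Polynomial

namespace Pool.Agent.N868.HG

open Pool.Agent.N207.HG
open Pool.Agent.Y119.PLM (MT IsMon Cnt DenseMon cnt_rel IsRelT pe)
open Pool.Agent.Y985.OR (Mat Fam)
open Pool.Agent.Y977.ORD (isoRel isoRel_eval)

section
variable {X κ : Type} [Fintype X] {n : κ → ℕ}

theorem cnt_inv {U V : Set (X → ℂ)} {Y F : (X → ℂ) → MT n} (h : Cnt U Y V F)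
    (hU : IsPreconnected U) (hY : ∀ j a b, AnalyticOnNhd ℂ (fun x => Y x j a b) U) :
    IsPreconnected V ∧ ∀ j a b, AnalyticOnNhd ℂ (fun x => F x j a b) V := by
  cases h with
  | base => exact ⟨hU, hY⟩
  | step _ h1 h2 _ _ _ _ _ => exact ⟨h1, h2⟩

theorem cnt_trans {U V V' : Set (X → ℂ)} {Y F F' : (X → ℂ) → MT n} (h : Cnt U Y V F)
    (h' : Cnt V F V' F') : Cnt U Y V' F' := by
  induction h' with
  | base => exact h
  | step _ h1 h2 h3 h4 h5 h6 h7 ih => exact Cnt.step ih h1 h2 h3 h4 h5 h6 h7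

theorem cnt_symm {U V : Set (X → ℂ)} {Y F : (X → ℂ) → MT n} (h : Cnt U Y V F)
    (hU : IsPreconnected U) (hY : ∀ j a b, AnalyticOnNhd ℂ (fun x => Y x j a b) U) :
    Cnt V F U Y := by
  induction h with
  | base => exact Cnt.base
  | step h0 h1 h2 h3 h4 h5 h6 h7 ih =>
    obtain ⟨h8, h9⟩ := cnt_inv h0 hU hY
    exact cnt_trans (Cnt.step Cnt.base h8 h9 h3 h4 h6 h5 fun x hx => (h7 x hx).symm) ih

theorem an_mul {V : Set (X → ℂ)} {F : (X → ℂ) → MT n}
    (h : ∀ j a b, AnalyticOnNhd ℂ (fun x => F x j a b) V) (g : MT n) :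
    ∀ j a b, AnalyticOnNhd ℂ (fun x => (F x * g) j a b) V := by
  intro j a b
  have h1 : (fun x => (F x * g) j a b) = fun x => ∑ k, F x j a k * g j k b := by
    funext x
    rw [Pi.mul_apply, Matrix.mul_apply]
  rw [h1]
  exact Finset.analyticOnNhd_fun_sum _ fun k _ => (h j a k).mul analyticOnNhd_const

theorem cnt_mulr {U V : Set (X → ℂ)} {Y F : (X → ℂ) → MT n} (h : Cnt U Y V F) (g : MT n) :
    Cnt U (fun x => Y x * g) V (fun x => F x * g) := by
  induction h with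
  | base => exact Cnt.base
  | step h0 h1 h2 h3 h4 h5 h6 h7 ih =>
    refine Cnt.step ih h1 (an_mul h2 g) h3 h4 h5 h6 fun x hx => ?_
    show _ * g = _ * g
    rw [h7 x hx]

theorem mon_cnt {U V : Set (X → ℂ)} {Y F : (X → ℂ) → MT n} (h : Cnt U Y V F)
    (hU : IsPreconnected U) (hY : ∀ j a b, AnalyticOnNhd ℂ (fun x => Y x j a b) U)
    (hV : IsOpen V) (hne : V.Nonempty) {g : MT n} (hg : IsMon U Y g) : IsMon V F g := by
  obtain ⟨V1, W, F1, hc, hW, hWne, hWV, hWU, he⟩ := hg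
  have h1 : Cnt U Y U (fun x => Y x * g) :=
    Cnt.step hc hU (an_mul hY g) hW hWne hWV hWU fun x hx => (he x hx).symm
  have h2 : Cnt V F V (fun x => F x * g) :=
    cnt_trans (cnt_trans (cnt_symm h hU hY) h1) (cnt_mulr h g)
  exact ⟨V, V, fun x => F x * g, h2, hV, hne, subset_rfl, subset_rfl, fun _ _ => rfl⟩

end

theorem cnt : S_CNT := by
  intro X κ _ _ _ n J J' U V Y F hF hD hc hV hne
  obtain ⟨h1, h2⟩ := cnt_inv hc hF.pre hF.an
  refine ⟨⟨h1, hV, hne, h2, hF.ss, ?_⟩, ?_⟩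
  · intro x hx j
    ext a b
    have h3 : IsRelT U Y (isoRel j (J j) (J' j) a b) := by
      intro y hy
      rw [isoRel_eval, hF.rel y hy j, sub_self]
    have h4 := cnt_rel hc h3 x hx
    rw [isoRel_eval] at h4
    exact sub_eq_zero.1 h4
  · intro p hp
    exact hD p fun g hg => hp g (mon_cnt hc hF.pre hF.an hV hne hg)

end Pool.Agent.N868.HG
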