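import Pool.Agent.N207.HG.Stm

/-!
# HG/EIG: eigenvectors of `exp (2 π i A)` for a companion matrix `A`
-/

set_option autoImplicit false

open Matrix Polynomial

namespace Pool.Agent.N868.HG

open Pool.Agent.N207.HG
open Pool.Agent.Y985.OR (Mat)

variable {n : ℕ}

theorem aeval_eq {P : ℝ[X]} (hm : P.Monic) (hd : P.natDegree = n) (x : ℂ) :
    aeval x P = ∑ j : Fin n, (P.coeff j : ℂ) * x ^ (j : ℕ) + x ^ n := by
  rw [aeval_eq_sum_range, hd, Finset.sum_range_succ,
    Fin.sum_univ_eq_sum_range (fun j => (P.coeff j : ℂ) * x ^ j)]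
  have : P.coeff n = 1 := by rw [← hd]; exact hm
  rw [this]
  simp [Complex.real_smul]

theorem cmp_row_lt (P : ℝ[X]) (v : Fin n → ℂ) (i : Fin n) (h : (i : ℕ) + 1 < n) :
    (cmp n P *ᵥ v) i = v ⟨i + 1, h⟩ := by
  unfold Pool.Agent.N207.HG.cmp
  simp only [mulVec, dotProduct, Matrix.of_apply, if_pos h, ite_mul, one_mul, zero_mul]
  rw [Finset.sum_eq_single ⟨i + 1, h⟩]
  · simp
  · intro j _ hj
    rw [if_neg]
    intro h2
    exact hj (Fin.ext h2)
  · simp

theorem cmp_row_last (P : ℝ[X]) (v : Fin n → ℂ) (i : Fin n) (h : ¬ (i : ℕ) + 1 < n) :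
    (cmp n P *ᵥ v) i = -∑ j : Fin n, (P.coeff j : ℂ) * v j := by
  unfold Pool.Agent.N207.HG.cmp
  simp only [mulVec, dotProduct, Matrix.of_apply, if_neg h, neg_mul, Finset.sum_neg_distrib]

/-- the eigenvectors of a companion matrix -/
theorem eig_form {P : ℝ[X]} (hm : P.Monic) (hd : P.natDegree = n) {v : Fin n → ℂ} {x : ℂ}
    (h : cmp n P *ᵥ v = x • v) (hv : v ≠ 0) :
    aeval x P = 0 ∧ ∃ c : ℂ, c ≠ 0 ∧ v = c • nu n x := by
  have hn : 0 < n := by
    rcases Nat.eq_zero_or_pos n with h0 | h0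
    · subst h0
      exact absurd (Subsingleton.elim _ _) hv
    · exact h0
  have h1 : ∀ k (hk : k < n), v ⟨k, hk⟩ = x ^ k * v ⟨0, hn⟩ := by
    intro k
    induction k with
    | zero => intro hk; simp
    | succ k ih =>
      intro hk
      have h2 := congrFun h ⟨k, by omega⟩
      rw [cmp_row_lt P v ⟨k, by omega⟩ hk] at h2
      simp only [Pi.smul_apply, smul_eq_mul] at h2
      rw [h2, ih (by omega)]
      ring
  have h2 : v = v ⟨0, hn⟩ • nu n x := by
    ext i
    simp only [nu, Pi.smul_apply, smul_eq_mul]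
    have := h1 i i.2
    rw [mul_comm] at this
    exact this
  have hc : v ⟨0, hn⟩ ≠ 0 := by
    intro h3
    rw [h3, zero_smul] at h2
    exact hv h2
  refine ⟨?_, _, hc, h2⟩
  have h3 := congrFun h ⟨n - 1, by omega⟩
  rw [cmp_row_last P v _ (by simp only; omega)] at h3
  simp only [Pi.smul_apply, smul_eq_mul] at h3
  rw [h1 (n - 1) (by omega)] at h3
  have h4 : ∑ j : Fin n, (P.coeff j : ℂ) * v j =
      (∑ j : Fin n, (P.coeff j : ℂ) * x ^ (j : ℕ)) * v ⟨0, hn⟩ := by
    rw [Finset.sum_mul]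
    refine Finset.sum_congr rfl fun j _ => ?_
    have := h1 j j.2
    rw [show v j = x ^ (j : ℕ) * v ⟨0, hn⟩ from this]
    ring
  have h5 : aeval x P * v ⟨0, hn⟩ = 0 := by
    rw [aeval_eq hm hd, add_mul, ← h4]
    have h6 : x ^ n = x * x ^ (n - 1) := by
      rw [← pow_succ']
      congr 1
      omega
    rw [h6]
    linear_combination -h3
  exact (mul_eq_zero.1 h5).resolve_right hc

theorem cmp_nu {P : ℝ[X]} (hm : P.Monic) (hd : P.natDegree = n) {l : ℂ} (h : aeval l P = 0) :
    cmp n P *ᵥ nu n l = l • nu n l := by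
  ext i
  by_cases hi : (i : ℕ) + 1 < n
  · rw [cmp_row_lt P _ i hi]
    simp only [nu, Pi.smul_apply, smul_eq_mul]
    ring
  · rw [cmp_row_last P _ i hi]
    simp only [nu, Pi.smul_apply, smul_eq_mul]
    rw [aeval_eq hm hd] at h
    have h6 : l ^ n = l * l ^ (i : ℕ) := by
      rw [← pow_succ']
      congr 1
      have := i.2
      omega
    rw [h6] at h
    linear_combination -h

theorem aeval_der_eq {P : ℝ[X]} (hm : P.Monic) (hd : P.natDegree = n) (x : ℂ) :
    aeval x (derivative P) = ∑ j : Fin n, (P.coeff j : ℂ) * ((j : ℕ) * x ^ ((j : ℕ) - 1)) +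
      n * x ^ (n - 1) := by
  have h1 : derivative P = ∑ j ∈ Finset.range (n + 1), C (P.coeff j * j) * X ^ (j - 1) := by
    conv_lhs => rw [P.as_sum_range_C_mul_X_pow, hd]
    rw [derivative_sum]
    refine Finset.sum_congr rfl fun j _ => ?_
    rw [derivative_C_mul_X_pow]
  have h2 : P.coeff n = 1 := by rw [← hd]; exact hm
  rw [h1, map_sum, Finset.sum_range_succ, h2,
    Fin.sum_univ_eq_sum_range (fun j => (P.coeff j : ℂ) * ((j : ℂ) * x ^ (j - 1)))]
  congr 1
  · refine Finset.sum_congr rfl fun j _ => ?_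
    simp
    ring
  · simp

/-- the vector of the derivatives -/
noncomputable def nud (n : ℕ) (x : ℂ) : Fin n → ℂ := fun i => (i : ℕ) * x ^ ((i : ℕ) - 1)

theorem cmp_nud {P : ℝ[X]} (hm : P.Monic) (hd : P.natDegree = n) {l : ℂ}
    (h : aeval l (derivative P) = 0) :
    cmp n P *ᵥ nud n l = l • nud n l + nu n l := by
  have hp : ∀ k : ℕ, ((k : ℂ) + 1) * l ^ k = l * (k * l ^ (k - 1)) + l ^ k := by
    intro k
    rcases k with _ | k
    · simp
    · simp only [Nat.add_sub_cancel, pow_succ]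
      ring
  ext i
  by_cases hi : (i : ℕ) + 1 < n
  · rw [cmp_row_lt P _ i hi]
    simp only [nu, nud, Pi.smul_apply, Pi.add_apply, smul_eq_mul, Nat.add_sub_cancel]
    push_cast
    exact hp i
  · rw [cmp_row_last P _ i hi]
    simp only [nu, nud, Pi.smul_apply, Pi.add_apply, smul_eq_mul]
    rw [aeval_der_eq hm hd] at h
    have h6 : n = (i : ℕ) + 1 := by
      have := i.2
      omega
    have h7 : (n : ℂ) * l ^ (n - 1) = l * ((i : ℕ) * l ^ ((i : ℕ) - 1)) + l ^ (i : ℕ) := by
      rw [← hp i]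
      have h8 : n - 1 = (i : ℕ) := by omega
      have h9 : (n : ℂ) = ((i : ℕ) : ℂ) + 1 := by
        conv_lhs => rw [h6]
        push_cast
        ring
      rw [h8, h9]
    rw [← h7]
    linear_combination -h

theorem ex_comm (A : Mat n) (s : ℂ) : A * EX A s = EX A s * A := by
  unfold EX
  have : Commute A (s • A) := (Commute.refl A).smul_right s
  exact (Commute.exp_right this).eq

/-- the main step -/
theorem eig_main (hE : S_EXP) {P : ℝ[X]} (hm : P.Monic) (hd : P.natDegree = n)
    (hr : ∀ x y : ℂ, aeval x P = 0 → aeval y P = 0 → ∀ k : ℤ, y = x + k → y = x) (m : ℂ)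
    (s : Multiset ℂ) : ∀ e : Fin n → ℂ,
    EX (cmp n P) (2 * Real.pi * Complex.I) *ᵥ e = m • e →
    (aeval (cmp n P) (s.map fun a => X - C a).prod : Mat n) *ᵥ e = 0 → e ≠ 0 →
    ∃ (l c : ℂ), aeval l P = 0 ∧ m = Complex.exp (2 * Real.pi * Complex.I * l) ∧ c ≠ 0 ∧
      e = c • nu n l := by
  obtain ⟨-, -, -, -, hE5, hE6, -, -, -⟩ := hE n (cmp n P)
  have hbase : ∀ (l : ℂ) (e : Fin n → ℂ), EX (cmp n P) (2 * Real.pi * Complex.I) *ᵥ e = m • e →
      e ≠ 0 → cmp n P *ᵥ e = l • e → 
      aeval l P = 0 ∧ m = Complex.exp (2 * Real.pi * Complex.I * l) ∧ 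
        ∃ c : ℂ, c ≠ 0 ∧ e = c • nu n l := by
    intro l e h1 h2 h3
    obtain ⟨h4, h5⟩ := eig_form hm hd h3 h2
    refine ⟨h4, ?_, h5⟩
    have h6 := hE5 l e h3 (2 * Real.pi * Complex.I)
    rw [h1, ← sub_eq_zero, ← sub_smul] at h6
    exact sub_eq_zero.1 ((smul_eq_zero.1 h6).resolve_right h2)
  induction s using Multiset.induction with
  | empty =>
    intro e h1 h2 h3
    exfalso
    apply h3
    simpa using h2
  | cons a s ih =>
    intro e h1 h2 h3
    set A := cmp n P with hA
    obtain ⟨f, hf⟩ : ∃ f, f = A *ᵥ e - a • e := ⟨_, rfl⟩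
    have h4 : (aeval A (s.map fun a => X - C a).prod : Mat n) *ᵥ f = 0 := by
      rw [Multiset.map_cons, Multiset.prod_cons, mul_comm, map_mul, ← mulVec_mulVec] at h2
      rw [hf]
      have h5 : (aeval A (X - C a) : Mat n) *ᵥ e = A *ᵥ e - a • e := by
        rw [map_sub, aeval_X, aeval_C, sub_mulVec, Algebra.algebraMap_eq_smul_one, smul_mulVec, one_mulVec]
      rw [← h5]
      exact h2
    have h5 : EX A (2 * Real.pi * Complex.I) *ᵥ f = m • f := by
      rw [hf, mulVec_sub, mulVec_smul, mulVec_mulVec, ← ex_comm, ← mulVec_mulVec, h1, mulVec_smul,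
        smul_sub, smul_comm m a]
    by_cases h6 : f = 0
    · have h7 : A *ᵥ e = a • e := sub_eq_zero.1 (hf.symm.trans h6)
      obtain ⟨h8, h9, c, h10, h11⟩ := hbase a e h1 h3 h7
      exact ⟨a, c, h8, h9, h10, h11⟩
    · obtain ⟨l, c, h7, h8, h9, h10⟩ := ih f h5 h4 h6
      have h11 : A *ᵥ f = l • f := by
        rw [h10, mulVec_smul, hA, cmp_nu hm hd h7, smul_comm]
      by_cases h12 : a = l
      · exfalso
        subst h12
        have h13 := hE6 a e (by rw [← hf]; exact h11) (2 * Real.pi * Complex.I)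
        rw [h1, h8, ← hf, smul_add] at h13
        have h14 : Complex.exp (2 * Real.pi * Complex.I * a) • (2 * Real.pi * Complex.I) • f = 0 := by
          have := h13.symm
          rwa [add_eq_left] at this
        rw [smul_smul] at h14
        rcases smul_eq_zero.1 h14 with h15 | h15
        · exact mul_ne_zero (Complex.exp_ne_zero _) (by simp [Real.pi_ne_zero]) h15
        · exact h6 h15
      · have hla : l - a ≠ 0 := sub_ne_zero.2 (Ne.symm h12)
        obtain ⟨g, hg⟩ : ∃ g, g = e - (l - a)⁻¹ • f := ⟨_, rfl⟩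
        have h13 : A *ᵥ g = a • g := by
          have h14 : A *ᵥ e = a • e + f := by rw [hf]; abel
          rw [hg, mulVec_sub, mulVec_smul, h11, h14]
          ext i
          simp only [Pi.sub_apply, Pi.add_apply, Pi.smul_apply, smul_eq_mul]
          field_simp
          ring
        have h14 : EX A (2 * Real.pi * Complex.I) *ᵥ g = m • g := by
          rw [hg, mulVec_sub, mulVec_smul, h1, h5, smul_sub, smul_comm m]
        by_cases h15 : g = 0
        · refine ⟨l, (l - a)⁻¹ * c, h7, h8, mul_ne_zero (inv_ne_zero hla) h9, ?_⟩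
          rw [mul_smul, ← h10]
          exact sub_eq_zero.1 (hg.symm.trans h15)
        · exfalso
          obtain ⟨h16, h17, -⟩ := hbase a g h14 h15 h13
          rw [h8, Complex.exp_eq_exp_iff_exists_int] at h17
          obtain ⟨k, hk⟩ := h17
          have h18 : l = a + k := by
            have h19 : (2 * Real.pi * Complex.I : ℂ) ≠ 0 := by simp [Real.pi_ne_zero]
            apply mul_left_cancel₀ h19
            rw [hk]
            ring
          exact h12 (hr a l h16 h7 k h18).symm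

theorem eig : S_EXP → S_EIG := by
  intro hE n P hm hd hr
  refine ⟨?_, fun l hl => cmp_nu hm hd hl, ?_⟩
  · intro e m he h
    have h1 : (cmp n P).charpoly = ((cmp n P).charpoly.roots.map fun a => X - C a).prod :=
      (IsAlgClosed.splits (cmp n P).charpoly).eq_prod_roots_of_monic (cmp n P).charpoly_monic
    refine eig_main hE hm hd hr m (cmp n P).charpoly.roots e h ?_ he
    rw [← h1, Matrix.aeval_self_charpoly, zero_mulVec]
  · intro l hl hl'
    obtain ⟨-, -, -, -, -, hE6, -, -, -⟩ := hE n (cmp n P)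
    have h1 := cmp_nud hm hd hl'
    have h2 : cmp n P *ᵥ nud n l - l • nud n l = nu n l := by
      rw [h1]
      abel
    have h3 := hE6 l (nud n l) (by rw [h2]; exact cmp_nu hm hd hl) (2 * Real.pi * Complex.I)
    rw [h2] at h3
    have h4 : (2 * Real.pi * Complex.I * Complex.exp (2 * Real.pi * Complex.I * l) : ℂ) ≠ 0 :=
      mul_ne_zero (by simp [Real.pi_ne_zero]) (Complex.exp_ne_zero _)
    refine ⟨(2 * Real.pi * Complex.I * Complex.exp (2 * Real.pi * Complex.I * l))⁻¹ • nud n l, ?_⟩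
    rw [mulVec_smul, h3]
    ext i
    simp only [Pi.sub_apply, Pi.add_apply, Pi.smul_apply, smul_eq_mul]
    have h5 : (2 * Real.pi * Complex.I : ℂ) ≠ 0 := by simp [Real.pi_ne_zero]
    have h6 := Complex.exp_ne_zero (2 * Real.pi * Complex.I * l)
    field_simp
    ring

end Pool.Agent.N868.HG
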