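import Pool.Agent.N207.HG.Stm

/-!
# HG/REL: the form `J0 - z w wᵀ` is horizontal and nondegenerate
-/

set_option autoImplicit false

open Matrix Polynomial

namespace Pool.Agent.N868.HG

open Pool.Agent.N207.HG
open Pool.Agent.Y119.HY (Gm HD)
open Pool.Agent.Y985.OR (Mat)

variable {n : ℕ}

theorem rel_alg {A B J0 W V1 V2 : Mat n} (h1 : Aᵀ * J0 + J0 * A = 0) (h2 : J0 * B = V1)
    (h3 : Bᵀ * J0 = V2) (h4 : W * B = V1) (h5 : Bᵀ * W = V2) (h6 : V1 = W * A + (1 / 2 : ℂ) • W)
    (h7 : V2 = Aᵀ * W + (1 / 2 : ℂ) • W) {c1 c2 z : ℂ} (hc1 : c1 * z = 1) (hc2 : c2 * (1 - z) = 1) :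
    (c1 • A + c2 • B)ᵀ * (J0 - z • W) + (J0 - z • W) * (c1 • A + c2 • B) = W := by
  have e0 : (c1 • A + c2 • B)ᵀ * (J0 - z • W) + (J0 - z • W) * (c1 • A + c2 • B) =
      c1 • (Aᵀ * J0) + c2 • (Bᵀ * J0) - (c1 * z) • (Aᵀ * W) - (c2 * z) • (Bᵀ * W) +
      (c1 • (J0 * A) + c2 • (J0 * B) - (c1 * z) • (W * A) - (c2 * z) • (W * B)) := by
    simp only [transpose_add, transpose_smul, add_mul, mul_sub, sub_mul, mul_add,
      smul_mul_assoc, mul_smul_comm, smul_add, smul_sub, smul_smul, mul_comm z]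
    abel
  rw [e0, h2, h3, h4, h5]
  ext i j
  have e1 := congrFun₂ h1 i j
  have e6 := congrFun₂ h6 i j
  have e7 := congrFun₂ h7 i j
  simp only [Matrix.add_apply, Matrix.smul_apply, Matrix.sub_apply, Matrix.zero_apply,
    smul_eq_mul] at e1 e6 e7 ⊢
  linear_combination c1 * e1 + (V1 i j + V2 i j) * hc2 - ((Aᵀ * W) i j + (W * A) i j) * hc1 +
    e6 + e7

theorem dot_eL (hn : 0 < n) (w : ℝ[X]) : cf n w ⬝ᵥ eL n = (w.coeff (n - 1) : ℂ) := by
  unfold dotProduct cf eL
  rw [Finset.sum_eq_single ⟨n - 1, by omega⟩]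
  · rw [if_pos (by simp only; omega), mul_one]
  · intro j _ hj
    rw [if_neg, mul_zero]
    intro h
    apply hj
    ext
    simp only
    omega
  · intro h
    exact absurd (Finset.mem_univ _) h

theorem coeff_w (hn : 0 < n) {w Q : ℝ[X]} (hQ : Q.Monic) (hQd : Q.natDegree = n)
    (h : Q = (X + C (1 / 2)) * w) : w.coeff (n - 1) = 1 := by
  have hX : (X + C (1 / 2 : ℝ)).Monic := monic_X_add_C _
  have hw : w.Monic := hX.of_mul_monic_left (h ▸ hQ)
  have hd : w.natDegree = n - 1 := by
    have h1 := hX.natDegree_mul hw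
    rw [← h, hQd, natDegree_X_add_C] at h1
    omega
  rw [← hd]
  exact hw

theorem det_form {J0 : Mat n} {e w : Fin n → ℂ} (hJ : J0 *ᵥ e = w) (z : ℂ) :
    (J0 - z • vecMulVec w w).det = J0.det * (1 - z * (w ⬝ᵥ e)) := by
  have h1 : J0 - z • vecMulVec w w = J0 * (1 + vecMulVec ((-z) • e) w) := by
    rw [mul_add, mul_one, mul_vecMulVec, mulVec_smul, hJ, smul_vecMulVec, neg_smul,
      sub_eq_add_neg]
  rw [h1, det_mul, vecMulVec_eq Unit, det_one_add_replicateCol_mul_replicateRow, dotProduct_smul,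
    smul_eq_mul]
  ring

theorem rel : S_FRM → S_REL := by
  intro hF n P w Q s hn hP hPd hQ hQd hwd hPs hws hroot hcase z hz0 hz1
  have hs : s = 1 ∨ s = -1 := hcase.imp And.left And.left
  obtain ⟨hJT, hA, hw, hdet, hv⟩ := hF n P w s hn hs hP hPd hwd hPs hws hroot
  have hkey : (Jz n P w s z).det ≠ 0 ∧
      (Gm (cmp n P) (bmp n P Q) z)ᵀ * Jz n P w s z + Jz n P w s z * Gm (cmp n P) (bmp n P Q) z =
        (((1 + s) / 2 : ℝ) : ℂ) • vecMulVec (cf n w) (cf n w) := by
    have hz2 : (1 : ℂ) - z ≠ 0 := sub_ne_zero.2 (Ne.symm hz1)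
    rcases hcase with ⟨h1, h2⟩ | ⟨h1, h2⟩
    · subst h1
      have hvv := hv Q hQd hQ h2
      have hwe : cf n w ⬝ᵥ eL n = 1 := by
        rw [dot_eL hn, coeff_w hn hQ hQd h2]
        simp
      have hJz : Jz n P w 1 z = cK n P w 1 - z • vecMulVec (cf n w) (cf n w) := by
        unfold Jz
        norm_num
      have hJe : eL n ᵥ* cK n P w 1 = cf n w := by
        have h3 : (cK n P w 1)ᵀ *ᵥ eL n = cf n w := by
          rw [hJT, Complex.ofReal_one, one_smul, hw]
        rwa [mulVec_transpose] at h3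
      constructor
      · rw [hJz, det_form hw, hwe, mul_one]
        exact mul_ne_zero hdet hz2
      · rw [hJz]
        have h3 : (((1 + 1) / 2 : ℝ) : ℂ) = 1 := by norm_num
        rw [h3, one_smul]
        unfold Gm bmp
        refine rel_alg (V1 := vecMulVec (cf n w) (cf n (Q - P)))
          (V2 := vecMulVec (cf n (Q - P)) (cf n w)) hA ?_ ?_ ?_ ?_ ?_ ?_ ?_ ?_
        · rw [mul_vecMulVec, hw]
        · rw [transpose_vecMulVec, vecMulVec_mul, hJe]
        · rw [vecMulVec_mul_vecMulVec, hwe, one_smul]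
        · rw [transpose_vecMulVec, vecMulVec_mul_vecMulVec, dotProduct_comm, hwe, one_smul]
        · rw [hvv, vecMulVec_add, vecMulVec_mul]
          congr 1
          ext i j
          simp only [vecMulVec_apply, Pi.smul_apply, Matrix.smul_apply, smul_eq_mul]
          ring
        · rw [hvv, add_vecMulVec, mul_vecMulVec, mulVec_transpose, smul_vecMulVec]
        · field_simp
        · field_simp
    · subst h1
      have hJz : Jz n P w (-1) z = cK n P w (-1) := by
        unfold Jz
        norm_num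
      have hQP : Q - P = w := by
        rw [h2]
        ring
      have hJe : eL n ᵥ* cK n P w (-1) = -cf n w := by
        have h3 : (cK n P w (-1))ᵀ *ᵥ eL n = -cf n w := by
          rw [hJT, smul_mulVec, hw]
          simp
        rwa [mulVec_transpose] at h3
      constructor
      · rw [hJz]
        exact hdet
      · rw [hJz]
        have h3 : (((1 + -1) / 2 : ℝ) : ℂ) = 0 := by norm_num
        rw [h3, zero_smul]
        unfold Gm bmp
        rw [hQP]
        have e0 : ((1 / z) • cmp n P + (1 / (1 - z)) • vecMulVec (eL n) (cf n w))ᵀ *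
            cK n P w (-1) + cK n P w (-1) *
              ((1 / z) • cmp n P + (1 / (1 - z)) • vecMulVec (eL n) (cf n w)) =
            (1 / z) • ((cmp n P)ᵀ * cK n P w (-1) + cK n P w (-1) * cmp n P) +
            (1 / (1 - z)) • ((vecMulVec (eL n) (cf n w))ᵀ * cK n P w (-1) +
              cK n P w (-1) * vecMulVec (eL n) (cf n w)) := by
          simp only [transpose_add, transpose_smul, add_mul, mul_add, smul_mul_assoc,
            mul_smul_comm, smul_add]
          abel
        rw [e0, hA, transpose_vecMulVec, vecMulVec_mul, hJe, mul_vecMulVec, hw, smul_zero,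
          zero_add]
        have e1 : vecMulVec (cf n w) (-cf n w) + vecMulVec (cf n w) (cf n w) = 0 := by
          ext i j
          simp only [Matrix.add_apply, vecMulVec_apply, Pi.neg_apply, Matrix.zero_apply]
          ring
        rw [e1, smul_zero]
  refine ⟨hkey.1, fun Y hY => ?_⟩
  have hJd : HD (fun x => Jz n P w s x)
      (-((((1 + s) / 2 : ℝ) : ℂ) • vecMulVec (cf n w) (cf n w))) z := by
    intro i j
    have h1 : (fun x : ℂ => Jz n P w s x i j) = fun x => cK n P w s i j -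
        x * ((((1 + s) / 2 : ℝ) : ℂ) * vecMulVec (cf n w) (cf n w) i j) := by
      funext x
      unfold Jz
      simp only [Matrix.sub_apply, Matrix.smul_apply, smul_eq_mul]
      ring
    rw [h1]
    have h2 := ((hasDerivAt_id z).mul_const
      ((((1 + s) / 2 : ℝ) : ℂ) * vecMulVec (cf n w) (cf n w) i j)).const_sub (cK n P w s i j)
    simpa using h2
  have h1 := (hY.transpose.mul hJd).mul hY
  refine h1.congr ?_
  have h2 := hkey.2
  set G := Gm (cmp n P) (bmp n P Q) z
  set W := (((1 + s) / 2 : ℝ) : ℂ) • vecMulVec (cf n w) (cf n w)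
  calc ((G * Y z)ᵀ * Jz n P w s z + (Y z)ᵀ * -W) * Y z + (Y z)ᵀ * Jz n P w s z * (G * Y z)
      = (Y z)ᵀ * ((Gᵀ * Jz n P w s z + Jz n P w s z * G) - W) * Y z := by
        rw [transpose_mul]
        noncomm_ring
    _ = 0 := by rw [h2, sub_self, mul_zero, zero_mul]

end Pool.Agent.N868.HG
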